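import Pool.Agent.H15.HLU.Targets
import Pool.Agent.H22.HSQ.Iso
import Pool.Agent.H22.HSQ.Dih

/-!
Row B2D of the board hlu_modules (MP_3713ea_co): the multiplication table of the dihedral group.
-/

set_option autoImplicit false

namespace Pool.Agent.H1.HLU

open Pool.Agent.H51.Homog Pool.Agent.H22.HSQ Pool.Agent.H15.HLS Pool.Agent.H15.HLU

theorem ncard_val_Ico {m u c : ℕ} [NeZero m] (h1 : u + c ≤ m) :
    {i : ZMod m | u ≤ i.val ∧ i.val < u + c}.ncard = c := by
  have h2 : {i : ZMod m | u ≤ i.val ∧ i.val < u + c} =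
      (fun n : ℕ => (n : ZMod m)) '' (Finset.Ico u (u + c) : Set ℕ) := by
    ext i
    constructor
    · intro hi
      exact ⟨i.val, Finset.mem_coe.2 (Finset.mem_Ico.2 hi), ZMod.natCast_zmod_val i⟩
    · rintro ⟨n, hn, rfl⟩
      rw [Finset.mem_coe, Finset.mem_Ico] at hn
      show u ≤ (n : ZMod m).val ∧ (n : ZMod m).val < u + c
      rw [ZMod.val_cast_of_lt (by omega)]
      exact hn
  have h4 : Set.InjOn (fun n : ℕ => (n : ZMod m)) (Finset.Ico u (u + c) : Set ℕ) := by
    intro a ha b hb hab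
    rw [Finset.mem_coe, Finset.mem_Ico] at ha hb
    have h3 := congrArg ZMod.val hab
    simp only at h3
    rwa [ZMod.val_cast_of_lt (by omega), ZMod.val_cast_of_lt (by omega)] at h3
  rw [h2, h4.ncard_image, Set.ncard_coe_finset, Nat.card_Ico]
  omega

/-- the intercalates given by a set of reflections -/
def SP {m : ℕ} (P : ZMod m → Prop) (x y x1 y1 : DihedralGroup m) : Prop :=
  ∃ i : ZMod m, P i ∧ x1 = x * DihedralGroup.sr i ∧ y1 = DihedralGroup.sr i * y

theorem isSys_SP {m : ℕ} (P : ZMod m → Prop) :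
    IsSys (fun x y : DihedralGroup m => x * y) (SP P) := by
  have hsr : ∀ i : ZMod m, DihedralGroup.sr i * DihedralGroup.sr i = 1 :=
    DihedralGroup.sr_mul_self
  have hne : ∀ i : ZMod m, DihedralGroup.sr i ≠ 1 := by
    intro i hi
    rw [DihedralGroup.one_def] at hi
    cases hi
  refine ⟨?_, ?_, ?_, ?_, ?_, ?_⟩
  · rintro x y x1 y1 ⟨i, -, rfl, rfl⟩ he
    exact hne i (mul_eq_left.1 he)
  · rintro x y x1 y1 ⟨i, -, rfl, rfl⟩ he
    exact hne i (mul_eq_right.1 he)
  · rintro x y x1 y1 ⟨i, -, rfl, rfl⟩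
    show x * DihedralGroup.sr i * (DihedralGroup.sr i * y) = x * y
    rw [mul_assoc, ← mul_assoc (DihedralGroup.sr i), hsr, one_mul]
  · rintro x y x1 y1 ⟨i, -, rfl, rfl⟩
    exact mul_assoc _ _ _
  · rintro x y x1 y1 ⟨i, hi, rfl, rfl⟩
    exact ⟨i, hi, by rw [mul_assoc, hsr, mul_one], rfl⟩
  · rintro x y x1 y1 ⟨i, hi, rfl, rfl⟩
    exact ⟨i, hi, rfl, by rw [← mul_assoc, hsr, one_mul]⟩

theorem cov_SP {m : ℕ} (P : ZMod m → Prop) (x y : DihedralGroup m) :
    cov (SP P) x y = {i : ZMod m | P i}.ncard := by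
  unfold cov
  have h2 : {p : DihedralGroup m × DihedralGroup m | SP P x y p.1 p.2} =
      (fun i : ZMod m => (x * DihedralGroup.sr i, DihedralGroup.sr i * y)) ''
        {i : ZMod m | P i} := by
    ext ⟨a, b⟩
    constructor
    · rintro ⟨i, hi, h3, h4⟩
      exact ⟨i, hi, Prod.ext h3.symm h4.symm⟩
    · rintro ⟨i, hi, h3⟩
      exact ⟨i, hi, (congrArg Prod.fst h3).symm, (congrArg Prod.snd h3).symm⟩
  refine (congrArg Set.ncard h2).trans ?_
  rw [Set.ncard_image_of_injective]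
  intro i j hij
  have h3 := congrArg Prod.fst hij
  have h4 := mul_left_cancel h3
  exact DihedralGroup.sr.inj h4

theorem pf_B2D : T_B2D := by
  intro u c m hm hu
  have : NeZero m := ⟨by omega⟩
  have hL : IsLatin (fun x y : DihedralGroup m => x * y) :=
    ⟨fun r => Group.mulLeft_bijective r, fun c => Group.mulRight_bijective c⟩
  let e : DihedralGroup m ≃ Fin (2 * m) :=
    Fintype.equivFinOfCardEq DihedralGroup.card
  have h0 := iso_transport e e e hL (isSys_SP fun i : ZMod m => i.val < u)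
  have h1 := iso_transport e e e hL (isSys_SP fun i : ZMod m => u ≤ i.val ∧ i.val < u + c)
  refine ⟨_, _, _, h0.1, h0.2.1, h1.2.1, fun r k => ?_, fun r k => ?_, ?_⟩
  · rw [h0.2.2, cov_SP]
    exact ncard_val_lt (by omega)
  · rw [h1.2.2, cov_SP]
    exact ncard_val_Ico hu
  · rintro r k r' k' ⟨⟨i, hi, h2, -⟩, j, hj, h3, -⟩
    rw [h2] at h3
    have h4 := DihedralGroup.sr.inj (mul_left_cancel h3)
    rw [h4] at hi
    omega

end Pool.Agent.H1.HLU
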