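import Pool.Agent.H15.HLU.Targets
import Pool.Agent.H22.HSQ.Iso

/-!
Row B2P of the board hlu_modules (MP_3713ea_co): products of latin squares with two disjoint sets of
intercalates.
-/

set_option autoImplicit false

namespace Pool.Agent.H1.HLU

open Pool.Agent.H51.Homog Pool.Agent.H22.HSQ Pool.Agent.H15.HLS Pool.Agent.H15.HLU

theorem b2p_aux {u c m₁ m₂ : ℕ} (H₁ : Base u m₁) (H₂ : Base c m₂) :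
    ∃ (γ : Type) (_ : Fintype γ) (L : γ → γ → γ) (S₀ S₁ : γ → γ → γ → γ → Prop),
      Fintype.card γ = m₁ * m₂ ∧ IsLatin L ∧ IsSys L S₀ ∧ IsSys L S₁ ∧ (∀ r k, cov S₀ r k = u) ∧
      (∀ r k, cov S₁ r k = c) ∧ ∀ r k r' k', ¬ (S₀ r k r' k' ∧ S₁ r k r' k') := by
  obtain ⟨α, _, L₁, S₁, hc₁, hL₁, hS₁, hv₁⟩ := H₁
  obtain ⟨β, _, L₂, S₂, hc₂, hL₂, hS₂, hv₂⟩ := H₂
  refine ⟨α × β, inferInstance, fun r c => (L₁ r.1 c.1, L₂ r.2 c.2),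
    fun r c r' c' => S₁ r.1 c.1 r'.1 c'.1 ∧ r'.2 = r.2 ∧ c'.2 = c.2,
    fun r c r' c' => r'.1 = r.1 ∧ c'.1 = c.1 ∧ S₂ r.2 c.2 r'.2 c'.2, ?_, ?_, ?_, ?_, ?_, ?_, ?_⟩
  · rw [Fintype.card_prod, hc₁, hc₂]
  · exact ⟨fun r => (hL₁.1 r.1).prodMap (hL₂.1 r.2), fun c => (hL₁.2 c.1).prodMap (hL₂.2 c.2)⟩
  · refine ⟨?_, ?_, ?_, ?_, ?_, ?_⟩
    · rintro ⟨r, s⟩ ⟨c, d⟩ ⟨r', s'⟩ ⟨c', d'⟩ ⟨h, h1, h2⟩ he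
      exact hS₁.ne_row h (congrArg Prod.fst he)
    · rintro ⟨r, s⟩ ⟨c, d⟩ ⟨r', s'⟩ ⟨c', d'⟩ ⟨h, h1, h2⟩ he
      exact hS₁.ne_col h (congrArg Prod.fst he)
    · rintro ⟨r, s⟩ ⟨c, d⟩ ⟨r', s'⟩ ⟨c', d'⟩ ⟨h, h1, h2⟩
      have h3 := hS₁.diag h
      simp only at h1 h2 h3 ⊢
      rw [h1, h2, h3]
    · rintro ⟨r, s⟩ ⟨c, d⟩ ⟨r', s'⟩ ⟨c', d'⟩ ⟨h, h1, h2⟩
      have h3 := hS₁.anti h
      simp only at h1 h2 h3 ⊢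
      rw [h1, h2, h3]
    · rintro ⟨r, s⟩ ⟨c, d⟩ ⟨r', s'⟩ ⟨c', d'⟩ ⟨h, h1, h2⟩
      exact ⟨hS₁.swap_row h, h1.symm, h2⟩
    · rintro ⟨r, s⟩ ⟨c, d⟩ ⟨r', s'⟩ ⟨c', d'⟩ ⟨h, h1, h2⟩
      exact ⟨hS₁.swap_col h, h1, h2.symm⟩
  · refine ⟨?_, ?_, ?_, ?_, ?_, ?_⟩
    · rintro ⟨r, s⟩ ⟨c, d⟩ ⟨r', s'⟩ ⟨c', d'⟩ ⟨h1, h2, h⟩ he
      exact hS₂.ne_row h (congrArg Prod.snd he)
    · rintro ⟨r, s⟩ ⟨c, d⟩ ⟨r', s'⟩ ⟨c', d'⟩ ⟨h1, h2, h⟩ he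
      exact hS₂.ne_col h (congrArg Prod.snd he)
    · rintro ⟨r, s⟩ ⟨c, d⟩ ⟨r', s'⟩ ⟨c', d'⟩ ⟨h1, h2, h⟩
      have h3 := hS₂.diag h
      simp only at h1 h2 h3 ⊢
      rw [h1, h2, h3]
    · rintro ⟨r, s⟩ ⟨c, d⟩ ⟨r', s'⟩ ⟨c', d'⟩ ⟨h1, h2, h⟩
      have h3 := hS₂.anti h
      simp only at h1 h2 h3 ⊢
      rw [h1, h2, h3]
    · rintro ⟨r, s⟩ ⟨c, d⟩ ⟨r', s'⟩ ⟨c', d'⟩ ⟨h1, h2, h⟩
      exact ⟨h1.symm, h2, hS₂.swap_row h⟩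
    · rintro ⟨r, s⟩ ⟨c, d⟩ ⟨r', s'⟩ ⟨c', d'⟩ ⟨h1, h2, h⟩
      exact ⟨h1, h2.symm, hS₂.swap_col h⟩
  · rintro ⟨r, s⟩ ⟨c, d⟩
    unfold cov
    have h1 : {p : (α × β) × (α × β) | S₁ r c p.1.1 p.2.1 ∧ p.1.2 = s ∧ p.2.2 = d} =
        ((fun p : α × α => (((p.1, s), (p.2, d)) : (α × β) × (α × β))) ''
          {p : α × α | S₁ r c p.1 p.2}) := by
      ext ⟨⟨a, b⟩, ⟨a', b'⟩⟩
      constructor
      · rintro ⟨h, h1, h2⟩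
        refine ⟨(a, a'), h, ?_⟩
        simp only at h1 h2 ⊢
        rw [h1, h2]
      · rintro ⟨⟨p1, p2⟩, h, he⟩
        simp only [Prod.mk.injEq] at he
        obtain ⟨⟨rfl, rfl⟩, rfl, rfl⟩ := he
        exact ⟨h, rfl, rfl⟩
    refine (congrArg Set.ncard h1).trans ?_
    rw [Set.ncard_image_of_injective]
    · exact hv₁ r c
    · rintro ⟨a, b⟩ ⟨a', b'⟩ he
      simp only [Prod.mk.injEq] at he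
      rw [he.1.1, he.2.1]
  · rintro ⟨r, s⟩ ⟨c, d⟩
    unfold cov
    have h1 : {p : (α × β) × (α × β) | p.1.1 = r ∧ p.2.1 = c ∧ S₂ s d p.1.2 p.2.2} =
        ((fun p : β × β => (((r, p.1), (c, p.2)) : (α × β) × (α × β))) ''
          {p : β × β | S₂ s d p.1 p.2}) := by
      ext ⟨⟨a, b⟩, ⟨a', b'⟩⟩
      constructor
      · rintro ⟨h1, h2, h⟩
        refine ⟨(b, b'), h, ?_⟩
        simp only at h1 h2 ⊢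
        rw [h1, h2]
      · rintro ⟨⟨p1, p2⟩, h, he⟩
        simp only [Prod.mk.injEq] at he
        obtain ⟨⟨rfl, rfl⟩, rfl, rfl⟩ := he
        exact ⟨rfl, rfl, h⟩
    refine (congrArg Set.ncard h1).trans ?_
    rw [Set.ncard_image_of_injective]
    · exact hv₂ s d
    · rintro ⟨a, b⟩ ⟨a', b'⟩ he
      simp only [Prod.mk.injEq] at he
      rw [he.1.2, he.2.2]
  · rintro ⟨r, s⟩ ⟨c, d⟩ ⟨r', s'⟩ ⟨c', d'⟩ ⟨⟨h, -, -⟩, h1, -, -⟩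
    exact hS₁.ne_row h h1

/-- from products -/
theorem pf_B2P : T_B2P := by
  intro u c m₁ m₂ H₁ H₂
  obtain ⟨γ, _, L, S₀, S₁, hcard, hL, hS0, hS1, hv0, hv1, hd⟩ := b2p_aux H₁ H₂
  let e : γ ≃ Fin (m₁ * m₂) := Fintype.equivFinOfCardEq hcard
  obtain ⟨a1, a2, a3⟩ := iso_transport e e e hL hS0
  obtain ⟨b1, b2, b3⟩ := iso_transport e e e hL hS1
  exact ⟨_, _, _, a1, a2, b2, fun r k => (a3 r k).trans (hv0 _ _),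
    fun r k => (b3 r k).trans (hv1 _ _), fun r k r' k' => hd _ _ _ _⟩

end Pool.Agent.H1.HLU
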