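import Pool.Agent.H15.HLU.Targets

/-!
Row OPR of the board hlu_modules (MP_3713ea_co): products with odd numbers.
-/

set_option autoImplicit false

namespace Pool.Agent.H1.HLU

open Pool.Agent.H51.Homog Pool.Agent.H22.HSQ Pool.Agent.H15.HLS Pool.Agent.H15.HLU

theorem pf_OPR (hMSQ : T_MSQ) (hTRO : T_TRO) : T_OPR := by
  intro h s N hs hN
  have hpos := hN.pos
  rcases Nat.lt_or_ge 1 N with h1 | h1
  · have : NeZero N := ⟨by omega⟩
    obtain ⟨L, hL, hH⟩ := hs
    obtain ⟨M, hM, hMH, -⟩ := hMSQ (Fin s) h N L h1 hN hL hH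
    refine (hTRO (ZMod N × Fin s) h (s * N) ?_).2 ⟨M, hM, hMH⟩
    rw [Fintype.card_prod, ZMod.card, Fintype.card_fin, mul_comm]
  · have h2 : N = 1 := by omega
    rw [h2, mul_one]
    exact hs

end Pool.Agent.H1.HLU
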