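import Pool.Agent.H15.HLU.Targets

/-!
Row TYO of the board hlu_modules (MP_3713ea_co): orders of odd type.
-/

set_option autoImplicit false

namespace Pool.Agent.H1.HLU

open Pool.Agent.H51.Homog Pool.Agent.H22.HSQ Pool.Agent.H15.HLS Pool.Agent.H15.HLU

theorem tyo_aux {m q y J A B D P Q r : ℕ} (hm : m ^ (r + 1) ≤ P) (hq : q ≤ Q) (hQ : 1 ≤ Q)
    (hy : y ≤ J) (hA : A ≤ D) (hB : B ≤ D) :
    m ^ (r + 1) * y ^ A * q ^ B ≤ (P * Q ^ D + D) * (J + 1) ^ (P * Q ^ D + D) := by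
  have h1 : y ^ A ≤ (J + 1) ^ D :=
    (Nat.pow_le_pow_left (by omega) A).trans (Nat.pow_le_pow_right (by omega) hA)
  have h2 : q ^ B ≤ Q ^ D := (Nat.pow_le_pow_left hq B).trans (Nat.pow_le_pow_right hQ hB)
  calc m ^ (r + 1) * y ^ A * q ^ B ≤ P * (J + 1) ^ D * Q ^ D :=
        Nat.mul_le_mul (Nat.mul_le_mul hm h1) h2
    _ = (P * Q ^ D) * (J + 1) ^ D := by ring
    _ ≤ _ := Nat.mul_le_mul (Nat.le_add_right _ _)
        (Nat.pow_le_pow_right (by omega) (Nat.le_add_left _ _))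

theorem dvd_aux (m q y a b c : ℕ) :
    m ^ a * y ^ b * q ^ c ∣ (m * q * y) ^ (a + b + c) := by
  rw [pow_add, pow_add]
  refine mul_dvd_mul (mul_dvd_mul ?_ ?_) ?_
  · exact pow_dvd_pow_of_dvd ⟨q * y, by ring⟩ a
  · exact pow_dvd_pow_of_dvd ⟨m * q, by ring⟩ b
  · exact pow_dvd_pow_of_dvd ⟨m * y, by ring⟩ c

theorem pf_TYO (hIN2 : T_IN2) (hB2O : T_B2O) : T_TYO := by
  have hm : ∀ i : Fin 3, ![1201, 1321, 1801] i = 120 * ![10, 11, 15] i + 1 := by decide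
  have hm3 : ∀ i : Fin 3, 3 ≤ ![10, 11, 15] i := by decide
  have hm4 : ∀ i : Fin 3, ![1201, 1321, 1801] i ≤ 1801 := by decide
  have hm5 : ∀ i : Fin 3, 1 ≤ ![1201, 1321, 1801] i := by decide
  have hq1 : ∀ i : Fin 3, 1 < ![251, 257, 263] i := by decide
  have hq2 : ∀ i : Fin 3, ![251, 257, 263] i ≤ 263 := by decide
  have hq3 : ∀ i : Fin 3, Nat.Coprime (![251, 257, 263] i) 6 := by decide
  have hex : ∀ (r : ℕ) (i : Fin 3), ∃ A B : ℕ, ∀ y q : ℕ, 0 < y → Nat.Coprime y 6 → 1 < q →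
      Nat.Coprime q 6 → IsOrder (4 * r + 4 * y) ((![1201, 1321, 1801] i) ^ (r + 1) * y ^ A *
        q ^ B) := by
    intro r i
    rw [hm i]
    exact hIN2 _ _ _ (hB2O r _ (hm3 i))
  choose A B hAB using hex
  obtain ⟨P, hP⟩ : ∃ P : ℕ, P = 1801 ^ 241 := ⟨_, rfl⟩
  obtain ⟨D, hD⟩ : ∃ D : ℕ, ∀ r < 241, ∀ i, A r i ≤ D ∧ B r i ≤ D := by
    refine ⟨∑ r ∈ Finset.range 241, ∑ i, (A r i + B r i), fun r hr i => ?_⟩
    have h1 : A r i + B r i ≤ ∑ i, (A r i + B r i) :=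
      Finset.single_le_sum (f := fun i => A r i + B r i) (fun _ _ => Nat.zero_le _)
        (Finset.mem_univ i)
    have h2 : ∑ i, (A r i + B r i) ≤ ∑ r ∈ Finset.range 241, ∑ i, (A r i + B r i) :=
      Finset.single_le_sum (f := fun r => ∑ i, (A r i + B r i)) (fun _ _ => Nat.zero_le _)
        (Finset.mem_range.2 hr)
    omega
  refine ⟨P * 263 ^ D + D, fun J hJ y hy hcop i => ?_⟩
  obtain ⟨h1, h2⟩ := hy i
  obtain ⟨h3, h4⟩ := hD (J - y i) (by omega) i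
  have hc6 : Nat.Coprime (y i) 6 :=
    Nat.Coprime.coprime_dvd_right ⟨5 * QQ, by ring⟩ (hcop i)
  have h5 := hAB (J - y i) i (y i) (![251, 257, 263] i) (by omega) hc6 (hq1 i) (hq3 i)
  have h6 : 4 * (J - y i) + 4 * y i = 4 * J := by omega
  rw [h6] at h5
  refine ⟨_, (J - y i) + 1 + A (J - y i) i + B (J - y i) i, h5, ?_, dvd_aux _ _ _ _ _ _⟩
  refine tyo_aux ?_ (hq2 i) (by norm_num) h1 h3 h4
  rw [hP]
  exact (Nat.pow_le_pow_left (hm4 i) _).trans (Nat.pow_le_pow_right (by norm_num) (by omega))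

end Pool.Agent.H1.HLU
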